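import Pool.Agent.T9h12.M5.H3.Tab

/-! Evaluation of the certificate, part 1. -/

set_option autoImplicit false
set_option maxRecDepth 100000
set_option maxHeartbeats 4000000
open Finset

namespace Pool.Agent.T9h12.M5.H3
open Pool.Agent.H449R2.Fl

theorem k011 : chk 137438961696 T TP 1875157513185024 0 1 1 = true := by decide +kernel
theorem k112 : chk 137438961696 T TP 1875157513185024 1 1 2 = true := by decide +kernel
theorem k201 : chk 137438961696 T TP 1875157513185024 2 0 1 = true := by decide +kernel
theorem k220 : chk 137438961696 T TP 1875157513185024 2 2 0 = true := by decide +kernel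

end Pool.Agent.T9h12.M5.H3
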