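import Pool.Agent.T9h12.M5.H3.K0
import Pool.Agent.T9h12.M5.H3.K1
import Pool.Agent.T9h12.M5.H3.K2
import Pool.Agent.T9h12.M5.H3.K3
import Pool.Agent.T9h12.M5.H3.K4
import Pool.Agent.T9h12.M5.H3.K5
import Pool.Agent.T9h12.M5.H3.Gr

/-! The certificate. -/

set_option autoImplicit false
set_option maxRecDepth 100000
set_option maxHeartbeats 4000000
open Finset

namespace Pool.Agent.T9h12.M5.H3
open Pool.Agent.H449R2.Fl

theorem chk_all : ∀ c0 ≤ 2, ∀ c1 ≤ 2, ∀ c2 ≤ 2, chk 137438961696 T TP 1875157513185024 c0 c1 c2 = true := by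
  intro c0 h0 c1 h1 c2 h2
  interval_cases c0 <;> interval_cases c1 <;> interval_cases c2
  · exact k000
  · exact k001
  · exact k002
  · exact k010
  · exact k011
  · exact k012
  · exact k020
  · exact k021
  · exact k022
  · exact k100
  · exact k101
  · exact k102
  · exact k110
  · exact k111
  · exact k112
  · exact k120
  · exact k121
  · exact k122
  · exact k200
  · exact k201
  · exact k202
  · exact k210
  · exact k211
  · exact k212
  · exact k220
  · exact k221
  · exact k222

theorem gr : ∀ r < 54, nall 24 (ckG T lf hA hC Kr 4194304 8589934592 347 1000 11598595352598 4398046511104 r) = true := by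
  intro r hr
  interval_cases r
  · exact hG_0
  · exact hG_1
  · exact hG_2
  · exact hG_3
  · exact hG_4
  · exact hG_5
  · exact hG_6
  · exact hG_7
  · exact hG_8
  · exact hG_9
  · exact hG_10
  · exact hG_11
  · exact hG_12
  · exact hG_13
  · exact hG_14
  · exact hG_15
  · exact hG_16
  · exact hG_17
  · exact hG_18
  · exact hG_19
  · exact hG_20
  · exact hG_21
  · exact hG_22
  · exact hG_23
  · exact hG_24
  · exact hG_25
  · exact hG_26
  · exact hG_27
  · exact hG_28
  · exact hG_29
  · exact hG_30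
  · exact hG_31
  · exact hG_32
  · exact hG_33
  · exact hG_34
  · exact hG_35
  · exact hG_36
  · exact hG_37
  · exact hG_38
  · exact hG_39
  · exact hG_40
  · exact hG_41
  · exact hG_42
  · exact hG_43
  · exact hG_44
  · exact hG_45
  · exact hG_46
  · exact hG_47
  · exact hG_48
  · exact hG_49
  · exact hG_50
  · exact hG_51
  · exact hG_52
  · exact hG_53

theorem symS : ∀ a ≤ 2, ∀ b ≤ 2, ckS T a b = true := by
  intro a ha b hb
  interval_cases a <;> interval_cases b
  · exact hS_00
  · exact hS_01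
  · exact hS_02
  · exact hS_10
  · exact hS_11
  · exact hS_12
  · exact hS_20
  · exact hS_21
  · exact hS_22

theorem grP : ∀ a < 3, nall 18 (ckP TP mf 10 4194304 1584850360271 a) = true := by
  intro a ha
  interval_cases a
  · exact hP_0
  · exact hP_1
  · exact hP_2

/-- the two balance functions -/
def zA (u : ℕ) : ℤ := (is0 1000 0 u : ℤ) - 347
def zC (u : ℕ) : ℤ := (is0 1000 2 u : ℤ) - 347

theorem cert : Cert T TP zA zC 11598595352598 1584850360271 4398046511104 where
  hG := by
    intro r hr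
    refine ⟨Kr r, fun i k => (lf r i k : ℤ) - 4194304, fun i => (hA r i : ℤ) - 8589934592,
      fun i => (hC r i : ℤ) - 8589934592, fun i hi j hj => ?_⟩
    have h := ckG_true (gr r hr) hi hj
    simp only [zA, zC]
    exact_mod_cast h
  hP := by
    intro a ha
    refine ⟨10, fun i k => (mf a i k : ℤ) - 4194304, fun i hi j hj => ?_⟩
    have h := ckP_true (grP a ha) hi hj
    exact_mod_cast h

theorem tsym : TSym T TP :=
  tsym_of cert (fun _ ha _ hb _ hd _ ht _ h1 _ h2 _ h3 _ h4 _ k1 _ k2 _ k3 _ k4 =>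
    ckS_true symS ha hb hd ht h1 h2 h3 h4 k1 k2 k3 k4)
    (fun _ ha _ ht _ h1 _ h2 _ hu _ h3 _ h4 => ckY_true hY ha ht h1 h2 hu h3 h4)

/-- the bound for exact relative sizes -/
theorem bound {V : Type} [Fintype V] {e : V → V → V → ℕ} {c : V → ℕ} (he : Sy e)
    (hc : ∀ x, c x ≤ 2) (hP : ∀ x y z, bd 137438961696 (c x) (c y) (c z) (e x y z) = false)
    (hK : ∀ x y z w, k4 (e x y z) (e x y w) (e x z w) (e y z w) = false)
    (hzA : ∑ x, zA (c x) = 0) (hzC : ∑ x, zC (c x) = 0) :
    120 * 4398046511104 * ∑ a, ∑ b, ∑ x, (e a b x : ℤ) ≤ 293144027640744 * (Fintype.card V : ℤ) ^ 3 := by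
  have h := cert_bound he hc cert tsym 1875157513185024
    (fun x0 x1 x2 x3 x4 => chk_true chk_all he hc hP hK x0 x1 x2 x3 x4) hzA hzC
  norm_num at h
  norm_num
  linarith

end Pool.Agent.T9h12.M5.H3
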